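import Mathlib

/-!
# The modified separable Wasserstein distance can exceed the modified De Palma–Trevisan distance

We show that there are `d` and Hermitian `d × d` matrices `H₁, …, H_N` and states `ρ`, `σ` with
`W̃_sep(ρ, σ) > W̃(ρ, σ)`; in fact `d = 4`, `N = 2`, with `H₁ = diag(0, 4, 0, 1)`,
`H₂ = σ_x ⊕ σ_x`, `ρ = diag(1/2, 1/2, 0, 0)`, `σ = diag(0, 0, 1/2, 1/2)`.
-/

set_option autoImplicit false

open Matrix
open scoped Kronecker ComplexOrder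

namespace Pool.Agent.Results.MP_9a8b60_mp.SeparableExceedsGeneral

/-- States: positive semidefinite matrices of trace one. -/
def IsState {n : Type} [Fintype n] (ρ : Matrix n n ℂ) : Prop := ρ.PosSemidef ∧ ρ.trace = 1

/-- The reduced matrix of the first factor of `ℂ^d ⊗ ℂ^d` (the second factor is traced out). -/
def red₁ {d : ℕ} (Γ : Matrix (Fin d × Fin d) (Fin d × Fin d) ℂ) : Matrix (Fin d) (Fin d) ℂ :=
  fun a b => ∑ i, Γ (a, i) (b, i)

/-- The reduced matrix of the second factor of `ℂ^d ⊗ ℂ^d` (the first factor is traced out). -/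
def red₂ {d : ℕ} (Γ : Matrix (Fin d × Fin d) (Fin d × Fin d) ℂ) : Matrix (Fin d) (Fin d) ℂ :=
  fun a b => ∑ i, Γ (i, a) (i, b)

/-- `Γ` is a coupling of `ρ` and `σ`: a state whose reduced states are `ρᵀ` and `σ`.  For `c = true`
the first factor carries `ρᵀ`, for `c = false` the second factor carries `ρᵀ`. -/
def IsCoupling {d : ℕ} (c : Bool) (ρ σ : Matrix (Fin d) (Fin d) ℂ)
    (Γ : Matrix (Fin d × Fin d) (Fin d × Fin d) ℂ) : Prop :=
  IsState Γ ∧ if c = true then red₁ Γ = ρᵀ ∧ red₂ Γ = σ else red₂ Γ = ρᵀ ∧ red₁ Γ = σ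

/-- The cost `½ ∑_n tr [Γ (H_nᵀ ⊗ 1 - 1 ⊗ H_n)²]`. -/
noncomputable def cost {d N : ℕ} (H : Fin N → Matrix (Fin d) (Fin d) ℂ)
    (Γ : Matrix (Fin d × Fin d) (Fin d × Fin d) ℂ) : ℝ :=
  1 / 2 * ∑ n, (trace (Γ * ((H n)ᵀ ⊗ₖ 1 - 1 ⊗ₖ H n) ^ 2)).re

/-- `W(ρ, σ)`: the minimum of the cost over all couplings. -/
noncomputable def W {d N : ℕ} (c : Bool) (H : Fin N → Matrix (Fin d) (Fin d) ℂ)
    (ρ σ : Matrix (Fin d) (Fin d) ℂ) : ℝ :=
  sInf {x | ∃ Γ, IsCoupling c ρ σ Γ ∧ x = cost H Γ}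

/-- The modified quantity `W̃(ρ, σ) = W(ρ, σ) - ½ [W(ρ, ρ) + W(σ, σ)]`. -/
noncomputable def Wmod {d N : ℕ} (c : Bool) (H : Fin N → Matrix (Fin d) (Fin d) ℂ)
    (ρ σ : Matrix (Fin d) (Fin d) ℂ) : ℝ :=
  W c H ρ σ - 1 / 2 * (W c H ρ ρ + W c H σ σ)

/-- The matrix `|ψ⟩⟨ψ|`. -/
def proj {d : ℕ} (ψ : Fin d → ℂ) : Matrix (Fin d) (Fin d) ℂ := vecMulVec ψ (star ψ)

/-- `W_sep(ρ, σ)`: the minimum of `∑_k p_k W(Ψ_k, Φ_k)` over all finite families of weights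
`p_k > 0`, `∑ p_k = 1`, and unit vectors `Ψ_k`, `Φ_k` with `∑ p_k |Ψ_k⟩⟨Ψ_k| = ρ` and
`∑ p_k |Φ_k⟩⟨Φ_k| = σ`. -/
noncomputable def Wsep {d N : ℕ} (c : Bool) (H : Fin N → Matrix (Fin d) (Fin d) ℂ)
    (ρ σ : Matrix (Fin d) (Fin d) ℂ) : ℝ :=
  sInf {x | ∃ (K : ℕ) (p : Fin K → ℝ) (Ψ Φ : Fin K → Fin d → ℂ),
    (∀ k, 0 < p k) ∧ ∑ k, p k = 1 ∧ (∀ k, ∑ i, ‖Ψ k i‖ ^ 2 = 1) ∧ (∀ k, ∑ i, ‖Φ k i‖ ^ 2 = 1) ∧
    ∑ k, (p k : ℂ) • proj (Ψ k) = ρ ∧ ∑ k, (p k : ℂ) • proj (Φ k) = σ ∧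
    x = ∑ k, p k * W c H (proj (Ψ k)) (proj (Φ k))}

/-- The modified separable quantity `W̃_sep(ρ, σ) = W_sep(ρ, σ) - ½ [W_sep(ρ, ρ) + W_sep(σ, σ)]`. -/
noncomputable def Wsepmod {d N : ℕ} (c : Bool) (H : Fin N → Matrix (Fin d) (Fin d) ℂ)
    (ρ σ : Matrix (Fin d) (Fin d) ℂ) : ℝ :=
  Wsep c H ρ σ - 1 / 2 * (Wsep c H ρ ρ + Wsep c H σ σ)

/-! ### Reduced states -/

section general

variable {d N : ℕ}

lemma trace_mul_kron_one (Γ : Matrix (Fin d × Fin d) (Fin d × Fin d) ℂ)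
    (A : Matrix (Fin d) (Fin d) ℂ) : trace (Γ * (A ⊗ₖ 1)) = trace (red₁ Γ * A) := by
  simp only [trace, diag_apply, mul_apply, Fintype.sum_prod_type, kroneckerMap_apply, red₁,
    Finset.sum_mul]
  refine Finset.sum_congr rfl fun a _ => ?_
  rw [Finset.sum_comm]
  refine Finset.sum_congr rfl fun b _ => ?_
  simp [Matrix.one_apply]

lemma trace_mul_one_kron (Γ : Matrix (Fin d × Fin d) (Fin d × Fin d) ℂ)
    (A : Matrix (Fin d) (Fin d) ℂ) : trace (Γ * (1 ⊗ₖ A)) = trace (red₂ Γ * A) := by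
  simp only [trace, diag_apply, mul_apply, Fintype.sum_prod_type, kroneckerMap_apply, red₂,
    Finset.sum_mul]
  rw [Finset.sum_comm]
  refine Finset.sum_congr rfl fun a _ => ?_
  rw [Finset.sum_comm' (t' := Finset.univ) (s' := fun _ => Finset.univ) (by simp)]
  simp only [Matrix.one_apply, ite_mul, one_mul, zero_mul, mul_ite, mul_zero]
  simp
  exact Finset.sum_comm

/-- The cost in terms of the reduced states and one correlation. -/
lemma cost_term (H : Matrix (Fin d) (Fin d) ℂ) (Γ : Matrix (Fin d × Fin d) (Fin d × Fin d) ℂ) :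
    trace (Γ * (Hᵀ ⊗ₖ 1 - 1 ⊗ₖ H) ^ 2) =
      trace (red₁ Γ * (Hᵀ * Hᵀ)) + trace (red₂ Γ * (H * H)) - 2 * trace (Γ * (Hᵀ ⊗ₖ H)) := by
  have h : (Hᵀ ⊗ₖ (1 : Matrix (Fin d) (Fin d) ℂ) - 1 ⊗ₖ H) ^ 2 =
      (Hᵀ * Hᵀ) ⊗ₖ 1 + 1 ⊗ₖ (H * H) - (2 : ℂ) • (Hᵀ ⊗ₖ H) := by
    rw [sq, sub_mul, mul_sub, mul_sub, ← mul_kronecker_mul, ← mul_kronecker_mul,
      ← mul_kronecker_mul, ← mul_kronecker_mul, two_smul]
    simp only [mul_one, one_mul]
    abel
  rw [h, mul_sub, mul_add, trace_sub, trace_add, trace_mul_kron_one, trace_mul_one_kron,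
    Matrix.mul_smul, trace_smul, smul_eq_mul]

/-- The cost of a coupling is nonnegative. -/
lemma cost_nonneg (H : Fin N → Matrix (Fin d) (Fin d) ℂ) (hH : ∀ n, (H n).IsHermitian)
    (Γ : Matrix (Fin d × Fin d) (Fin d × Fin d) ℂ) (hΓ : Γ.PosSemidef) : 0 ≤ cost H Γ := by
  unfold cost
  refine mul_nonneg (by norm_num) (Finset.sum_nonneg fun n _ => ?_)
  set A := (H n)ᵀ ⊗ₖ (1 : Matrix (Fin d) (Fin d) ℂ) - 1 ⊗ₖ H n with hA
  have hAh : Aᴴ = A := by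
    rw [hA, conjTranspose_sub, conjTranspose_kronecker, conjTranspose_kronecker,
      conjTranspose_one]
    congr 1
    · congr 1
      exact (hH n).transpose
    · congr 1
      exact hH n
  have h1 : trace (Γ * A ^ 2) = trace (Aᴴ * Γ * A) := by
    rw [hAh, sq, ← Matrix.mul_assoc, trace_mul_comm (Γ * A) A, Matrix.mul_assoc]
  rw [h1]
  have h2 := (hΓ.conjTranspose_mul_mul_same A).trace_nonneg
  exact (Complex.le_def.1 h2).1

lemma W_nonneg (c : Bool) (H : Fin N → Matrix (Fin d) (Fin d) ℂ) (hH : ∀ n, (H n).IsHermitian)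
    (ρ σ : Matrix (Fin d) (Fin d) ℂ) : 0 ≤ W c H ρ σ := by
  refine Real.sInf_nonneg ?_
  rintro x ⟨Γ, hΓ, rfl⟩
  exact cost_nonneg H hH Γ hΓ.1.1

lemma W_le (c : Bool) (H : Fin N → Matrix (Fin d) (Fin d) ℂ) (hH : ∀ n, (H n).IsHermitian)
    (ρ σ : Matrix (Fin d) (Fin d) ℂ) (Γ : Matrix (Fin d × Fin d) (Fin d × Fin d) ℂ)
    (hΓ : IsCoupling c ρ σ Γ) : W c H ρ σ ≤ cost H Γ := by
  refine csInf_le ⟨0, ?_⟩ ⟨Γ, hΓ, rfl⟩
  rintro x ⟨Γ, hΓ, rfl⟩
  exact cost_nonneg H hH Γ hΓ.1.1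

/-- The expectation of `A` in the vector `a`. -/
noncomputable def ex (a : Fin d → ℂ) (A : Matrix (Fin d) (Fin d) ℂ) : ℂ := star a ⬝ᵥ A *ᵥ a

lemma trace_proj_mul (a : Fin d → ℂ) (A : Matrix (Fin d) (Fin d) ℂ) :
    trace (proj a * A) = ex a A := by
  unfold proj ex
  rw [vecMulVec_mul, trace_vecMulVec, dotProduct_comm, dotProduct_mulVec]

lemma norm_one_iff (a : Fin d → ℂ) : ∑ i, ‖a i‖ ^ 2 = 1 ↔ star a ⬝ᵥ a = 1 := by
  have : star a ⬝ᵥ a = ((∑ i, ‖a i‖ ^ 2 : ℝ) : ℂ) := by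
    simp only [dotProduct, Pi.star_apply, RCLike.star_def]
    push_cast
    refine Finset.sum_congr rfl fun i _ => ?_
    exact Complex.conj_mul' (a i)
  rw [this]
  norm_cast

lemma proj_mul_self {a : Fin d → ℂ} (ha : star a ⬝ᵥ a = 1) : proj a * proj a = proj a := by
  unfold proj
  rw [vecMulVec_mul_vecMulVec, ha, one_smul]

lemma proj_herm (a : Fin d → ℂ) : (proj a)ᴴ = proj a := by
  unfold proj
  rw [conjTranspose_vecMulVec, star_star]

lemma proj_psd (a : Fin d → ℂ) : (proj a).PosSemidef := posSemidef_vecMulVec_self_star a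

lemma trace_proj {a : Fin d → ℂ} (ha : star a ⬝ᵥ a = 1) : trace (proj a) = 1 := by
  unfold proj
  rw [trace_vecMulVec, dotProduct_comm, ha]

lemma proj_sandwich {a : Fin d → ℂ} (A : Matrix (Fin d) (Fin d) ℂ) :
    proj a * A * proj a = ex a A • proj a := by
  unfold proj ex
  rw [vecMulVec_mul, vecMulVec_mul_vecMulVec, dotProduct_mulVec, vecMulVec_smul]

open scoped MatrixOrder Matrix.Norms.L2Operator in
lemma exists_factor {n : Type} [Fintype n] [DecidableEq n] {Γ : Matrix n n ℂ}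
    (hΓ : Γ.PosSemidef) : ∃ B : Matrix n n ℂ, Γ = Bᴴ * B :=
  CStarAlgebra.nonneg_iff_eq_star_mul_self.mp hΓ.nonneg

/-- A coupling with a pure reduced state in the first factor is a product. -/
lemma pure_left (Γ : Matrix (Fin d × Fin d) (Fin d × Fin d) ℂ) (hΓ : Γ.PosSemidef)
    {a : Fin d → ℂ} (ha : star a ⬝ᵥ a = 1) (h1 : red₁ Γ = proj a)
    (A B : Matrix (Fin d) (Fin d) ℂ) :
    trace (Γ * (A ⊗ₖ B)) = ex a A * trace (red₂ Γ * B) := by
  set Q : Matrix (Fin d) (Fin d) ℂ := 1 - proj a with hQ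
  have hQh : Qᴴ = Q := by rw [hQ, conjTranspose_sub, conjTranspose_one, proj_herm]
  have hQQ : Q * Q = Q := by
    rw [hQ, sub_mul, mul_sub, mul_sub, proj_mul_self ha]
    simp
  set R := Q ⊗ₖ (1 : Matrix (Fin d) (Fin d) ℂ) with hR
  have hRh : Rᴴ = R := by rw [hR, conjTranspose_kronecker, hQh, conjTranspose_one]
  have hRR : R * R = R := by rw [hR, ← mul_kronecker_mul, hQQ, one_mul]
  have htr : trace (Rᴴ * Γ * R) = 0 := by
    rw [hRh, trace_mul_comm, ← Matrix.mul_assoc, hRR, trace_mul_comm, hR, trace_mul_kron_one, h1,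
      hQ, mul_sub, proj_mul_self ha, mul_one, sub_self, trace_zero]
  have hzero : Rᴴ * Γ * R = 0 := (hΓ.conjTranspose_mul_mul_same R).trace_eq_zero_iff.1 htr
  obtain ⟨B', hB'⟩ := exists_factor hΓ
  have hBR : B' * R = 0 := by
    rw [← conjTranspose_mul_self_eq_zero, conjTranspose_mul, Matrix.mul_assoc,
      ← Matrix.mul_assoc B'ᴴ, ← hB', ← Matrix.mul_assoc]
    exact hzero
  have hΓR : Γ * R = 0 := by rw [hB', Matrix.mul_assoc, hBR, Matrix.mul_zero]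
  have hRΓ : R * Γ = 0 := by
    have := congrArg conjTranspose hΓR
    rwa [conjTranspose_mul, hRh, hΓ.1, conjTranspose_zero] at this
  set P := proj a ⊗ₖ (1 : Matrix (Fin d) (Fin d) ℂ) with hP
  have hPR : P + R = 1 := by
    rw [hP, hR, ← add_kronecker, hQ, add_sub_cancel, one_kronecker_one]
  have hΓP : Γ * P = Γ := by
    have : Γ * (P + R) = Γ := by rw [hPR, mul_one]
    rwa [mul_add, hΓR, add_zero] at this
  have hPΓ : P * Γ = Γ := by
    have : (P + R) * Γ = Γ := by rw [hPR, one_mul]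
    rwa [add_mul, hRΓ, add_zero] at this
  calc trace (Γ * (A ⊗ₖ B)) = trace (P * Γ * P * (A ⊗ₖ B)) := by rw [hPΓ, hΓP]
    _ = trace (Γ * (P * (A ⊗ₖ B) * P)) := by
        rw [Matrix.mul_assoc P, Matrix.mul_assoc P, trace_mul_comm P]
        simp only [Matrix.mul_assoc]
    _ = trace (Γ * (ex a A • (proj a ⊗ₖ B))) := by
        rw [hP, ← mul_kronecker_mul, ← mul_kronecker_mul, one_mul, mul_one, proj_sandwich,
          smul_kronecker]
    _ = ex a A * trace (Γ * (P * (1 ⊗ₖ B))) := by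
        rw [Matrix.mul_smul, trace_smul, smul_eq_mul, hP, ← mul_kronecker_mul, mul_one, one_mul]
    _ = ex a A * trace (red₂ Γ * B) := by
        rw [← Matrix.mul_assoc, hΓP, trace_mul_one_kron]

lemma red₁_kron (A B : Matrix (Fin d) (Fin d) ℂ) : red₁ (A ⊗ₖ B) = trace B • A := by
  ext a b
  simp only [red₁, kroneckerMap_apply, Matrix.smul_apply, smul_eq_mul, trace, diag_apply,
    Finset.sum_mul]
  exact Finset.sum_congr rfl fun i _ => mul_comm _ _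

lemma red₂_kron (A B : Matrix (Fin d) (Fin d) ℂ) : red₂ (A ⊗ₖ B) = trace A • B := by
  ext a b
  simp only [red₂, kroneckerMap_apply, Matrix.smul_apply, smul_eq_mul, trace, diag_apply,
    Finset.sum_mul]

/-- The real number `½ ∑_n (⟨H²⟩_Ψ + ⟨H²⟩_Φ) - ∑_n ⟨H⟩_Ψ ⟨H⟩_Φ`. -/
noncomputable def pcost (H : Fin N → Matrix (Fin d) (Fin d) ℂ) (Ψ Φ : Fin d → ℂ) : ℝ :=
  1 / 2 * ∑ n, (ex Ψ (H n * H n) + ex Φ (H n * H n) - 2 * (ex Ψ (H n) * ex Φ (H n))).re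

lemma proj_transpose (a : Fin d → ℂ) : (proj a)ᵀ = proj (star a) := by
  unfold proj
  rw [transpose_vecMulVec, star_star]

lemma star_norm {a : Fin d → ℂ} (ha : star a ⬝ᵥ a = 1) : star (star a) ⬝ᵥ star a = 1 := by
  rw [star_star, dotProduct_comm]; exact ha

lemma ex_star_symm (a : Fin d → ℂ) (A : Matrix (Fin d) (Fin d) ℂ) (hA : Aᵀ = A) :
    ex (star a) A = ex a A := by
  unfold ex
  rw [star_star, dotProduct_mulVec, ← mulVec_transpose, hA, dotProduct_comm]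

/-- For real symmetric `H` the cost between pure states. -/
lemma W_pure (c : Bool) (H : Fin N → Matrix (Fin d) (Fin d) ℂ) (hH : ∀ n, (H n)ᵀ = H n)
    {Ψ Φ : Fin d → ℂ} (hΨ : star Ψ ⬝ᵥ Ψ = 1) (hΦ : star Φ ⬝ᵥ Φ = 1) :
    W c H (proj Ψ) (proj Φ) = pcost H Ψ Φ := by
  have key : {x | ∃ Γ, IsCoupling c (proj Ψ) (proj Φ) Γ ∧ x = cost H Γ} = {pcost H Ψ Φ} := by
    ext x
    simp only [Set.mem_ofPred_eq, Set.mem_singleton_iff]
    have hval : ∀ Γ, IsCoupling c (proj Ψ) (proj Φ) Γ → cost H Γ = pcost H Ψ Φ := by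
      intro Γ hΓ
      obtain ⟨⟨hpsd, htr⟩, hm⟩ := hΓ
      unfold cost pcost
      congr 1
      refine Finset.sum_congr rfl fun n _ => ?_
      have hHH : (H n * H n)ᵀ = H n * H n := by rw [transpose_mul, hH n]
      rw [cost_term, hH n]
      rcases c with _ | _
      · simp only [Bool.false_eq_true, if_false] at hm
        obtain ⟨h2, h1⟩ := hm
        rw [pure_left Γ hpsd hΦ h1, h1, h2, proj_transpose, trace_proj_mul, trace_proj_mul,
          trace_proj_mul, ex_star_symm _ _ hHH, ex_star_symm _ _ (hH n)]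
        ring_nf
      · simp only [if_true] at hm
        obtain ⟨h1, h2⟩ := hm
        rw [proj_transpose] at h1
        rw [pure_left Γ hpsd (star_norm hΨ) h1, h1, h2, trace_proj_mul, trace_proj_mul,
          trace_proj_mul, ex_star_symm _ _ hHH, ex_star_symm _ _ (hH n)]
    constructor
    · rintro ⟨Γ, hΓ, rfl⟩
      exact hval Γ hΓ
    · rintro rfl
      rcases c with _ | _
      · refine ⟨proj Φ ⊗ₖ (proj Ψ)ᵀ, ?_, ?_⟩
        · refine ⟨⟨(proj_psd Φ).kronecker (proj_psd Ψ).transpose, ?_⟩, ?_⟩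
          · rw [trace_kronecker, trace_transpose, trace_proj hΨ, trace_proj hΦ, one_mul]
          · simp only [Bool.false_eq_true, if_false]
            rw [red₁_kron, red₂_kron, trace_transpose, trace_proj hΨ, trace_proj hΦ, one_smul,
              one_smul]
            exact ⟨rfl, rfl⟩
        · symm
          apply hval
          refine ⟨⟨(proj_psd Φ).kronecker (proj_psd Ψ).transpose, ?_⟩, ?_⟩
          · rw [trace_kronecker, trace_transpose, trace_proj hΨ, trace_proj hΦ, one_mul]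
          · simp only [Bool.false_eq_true, if_false]
            rw [red₁_kron, red₂_kron, trace_transpose, trace_proj hΨ, trace_proj hΦ, one_smul,
              one_smul]
            exact ⟨rfl, rfl⟩
      · have hc : IsCoupling true (proj Ψ) (proj Φ) ((proj Ψ)ᵀ ⊗ₖ proj Φ) := by
          refine ⟨⟨(proj_psd Ψ).transpose.kronecker (proj_psd Φ), ?_⟩, ?_⟩
          · rw [trace_kronecker, trace_transpose, trace_proj hΨ, trace_proj hΦ, one_mul]
          · simp only [if_true]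
            rw [red₁_kron, red₂_kron, trace_transpose, trace_proj hΨ, trace_proj hΦ, one_smul,
              one_smul]
            exact ⟨rfl, rfl⟩
        exact ⟨_, hc, (hval _ hc).symm⟩
  unfold W
  rw [key, csInf_singleton]

end general

/-! ### The example -/

/-- `H₁ = diag(0, 4, 0, 1)`, `H₂ = σ_x ⊕ σ_x`. -/
def Hx : Fin 2 → Matrix (Fin 4) (Fin 4) ℂ :=
  ![!![0, 0, 0, 0; 0, 4, 0, 0; 0, 0, 0, 0; 0, 0, 0, 1],
    !![0, 1, 0, 0; 1, 0, 0, 0; 0, 0, 0, 1; 0, 0, 1, 0]]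

/-- `ρ = diag(1/2, 1/2, 0, 0)`. -/
noncomputable def rho : Matrix (Fin 4) (Fin 4) ℂ := diagonal ![1 / 2, 1 / 2, 0, 0]

/-- `σ = diag(0, 0, 1/2, 1/2)`. -/
noncomputable def sig : Matrix (Fin 4) (Fin 4) ℂ := diagonal ![0, 0, 1 / 2, 1 / 2]

lemma Hx_symm (n : Fin 2) : (Hx n)ᵀ = Hx n := by
  fin_cases n <;> (ext i j; fin_cases i <;> fin_cases j <;> simp [Hx])

lemma Hx_herm (n : Fin 2) : (Hx n).IsHermitian := by
  fin_cases n <;> (ext i j; fin_cases i <;> fin_cases j <;> simp [Hx])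

lemma rho_state : IsState rho := by
  refine ⟨PosSemidef.diagonal fun i => ?_, ?_⟩
  · fin_cases i <;> simp
  · simp [rho, trace_diagonal, Fin.sum_univ_four]; norm_num

lemma sig_state : IsState sig := by
  refine ⟨PosSemidef.diagonal fun i => ?_, ?_⟩
  · fin_cases i <;> simp
  · simp [sig, trace_diagonal, Fin.sum_univ_four]; norm_num

lemma ex_zero (Ψ : Fin 4 → ℂ) :
    ex Ψ (Hx 0) = ((4 * ‖Ψ 1‖ ^ 2 + ‖Ψ 3‖ ^ 2 : ℝ) : ℂ) := by
  have h1 := Complex.conj_mul' (Ψ 1)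
  have h3 := Complex.conj_mul' (Ψ 3)
  simp only [ex, Hx, dotProduct, mulVec, Fin.sum_univ_four, Pi.star_apply, RCLike.star_def]
  simp
  rw [← h1, ← h3]
  ring

lemma ex_one (Ψ : Fin 4 → ℂ) :
    ex Ψ (Hx 1) = ((2 * (star (Ψ 0) * Ψ 1).re + 2 * (star (Ψ 2) * Ψ 3).re : ℝ) : ℂ) := by
  simp only [ex, Hx, dotProduct, mulVec, Fin.sum_univ_four, Pi.star_apply, RCLike.star_def]
  apply Complex.ext <;> simp <;> ring

lemma ex_zero_sq (Ψ : Fin 4 → ℂ) :
    ex Ψ (Hx 0 * Hx 0) = ((16 * ‖Ψ 1‖ ^ 2 + ‖Ψ 3‖ ^ 2 : ℝ) : ℂ) := by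
  have h1 := Complex.conj_mul' (Ψ 1)
  have h3 := Complex.conj_mul' (Ψ 3)
  have : Hx 0 * Hx 0 = !![0, 0, 0, 0; 0, 16, 0, 0; 0, 0, 0, 0; 0, 0, 0, 1] := by
    ext i j
    fin_cases i <;> fin_cases j <;> simp [Hx, mul_apply, Fin.sum_univ_four] <;> norm_num
  rw [this]
  simp only [ex, dotProduct, mulVec, Fin.sum_univ_four, Pi.star_apply, RCLike.star_def]
  simp
  rw [← h1, ← h3]
  ring

lemma Hx_one_sq : Hx 1 * Hx 1 = 1 := by
  ext i j
  fin_cases i <;> fin_cases j <;> simp [Hx, mul_apply, Fin.sum_univ_four]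

lemma ex_one_sq (Ψ : Fin 4 → ℂ) :
    ex Ψ (Hx 1 * Hx 1) = ((∑ i, ‖Ψ i‖ ^ 2 : ℝ) : ℂ) := by
  rw [Hx_one_sq, ex, one_mulVec]
  simp only [dotProduct, Pi.star_apply, RCLike.star_def]
  push_cast
  exact Finset.sum_congr rfl fun i _ => Complex.conj_mul' (Ψ i)

/-- The cost between pure states in coordinates. -/
lemma pcost_eq (Ψ Φ : Fin 4 → ℂ) : pcost Hx Ψ Φ =
    1 / 2 * (16 * ‖Ψ 1‖ ^ 2 + ‖Ψ 3‖ ^ 2 + ∑ i, ‖Ψ i‖ ^ 2 + (16 * ‖Φ 1‖ ^ 2 + ‖Φ 3‖ ^ 2 +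
      ∑ i, ‖Φ i‖ ^ 2)) - (4 * ‖Ψ 1‖ ^ 2 + ‖Ψ 3‖ ^ 2) * (4 * ‖Φ 1‖ ^ 2 + ‖Φ 3‖ ^ 2) -
      (2 * (star (Ψ 0) * Ψ 1).re + 2 * (star (Ψ 2) * Ψ 3).re) *
      (2 * (star (Φ 0) * Φ 1).re + 2 * (star (Φ 2) * Φ 3).re) := by
  unfold pcost
  rw [Fin.sum_univ_two, ex_zero, ex_zero, ex_one, ex_one, ex_zero_sq, ex_zero_sq, ex_one_sq,
    ex_one_sq]
  have e : ∀ a b c d : ℝ, ((a : ℂ) + b - 2 * (c * d)).re = a + b - 2 * (c * d) := by
    intro a b c d
    norm_cast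
  rw [e, e]
  ring

/-- `|ψ⟩⟨ψ|` has diagonal entries `|ψ_i|²`. -/
lemma sum_diag {K d : ℕ} (p : Fin K → ℝ) (Ψ : Fin K → Fin d → ℂ) (D : Fin d → ℂ)
    (h : ∑ k, (p k : ℂ) • proj (Ψ k) = diagonal D) (i : Fin d) :
    ((∑ k, p k * ‖Ψ k i‖ ^ 2 : ℝ) : ℂ) = D i := by
  have := congrFun (congrFun h i) i
  rw [diagonal_apply_eq, Matrix.sum_apply] at this
  rw [← this]
  push_cast
  refine Finset.sum_congr rfl fun k _ => ?_
  rw [Matrix.smul_apply, proj, vecMulVec_apply, smul_eq_mul, Pi.star_apply, RCLike.star_def,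
    Complex.mul_conj']

lemma re_bound (a b : ℂ) : |(star a * b).re| ≤ ‖a‖ * ‖b‖ := by
  have := Complex.abs_re_le_norm (star a * b)
  rwa [norm_mul, RCLike.star_def, Complex.norm_conj] at this

/-- The separable cost is at most the cost of an explicit decomposition. -/
lemma Wsep_le (c : Bool) (ρ σ : Matrix (Fin 4) (Fin 4) ℂ) (K : ℕ) (p : Fin K → ℝ)
    (Ψ Φ : Fin K → Fin 4 → ℂ) (hp : ∀ k, 0 < p k) (hp1 : ∑ k, p k = 1)
    (hΨ : ∀ k, ∑ i, ‖Ψ k i‖ ^ 2 = 1) (hΦ : ∀ k, ∑ i, ‖Φ k i‖ ^ 2 = 1)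
    (hρ : ∑ k, (p k : ℂ) • proj (Ψ k) = ρ) (hσ : ∑ k, (p k : ℂ) • proj (Φ k) = σ) :
    Wsep c Hx ρ σ ≤ ∑ k, p k * pcost Hx (Ψ k) (Φ k) := by
  refine csInf_le ⟨0, ?_⟩ ⟨K, p, Ψ, Φ, hp, hp1, hΨ, hΦ, hρ, hσ, ?_⟩
  · rintro x ⟨K, p, Ψ, Φ, hp, -, -, -, -, -, rfl⟩
    exact Finset.sum_nonneg fun k _ => mul_nonneg (hp k).le (W_nonneg c Hx Hx_herm _ _)
  · refine Finset.sum_congr rfl fun k _ => ?_
    rw [W_pure c Hx Hx_symm ((norm_one_iff _).1 (hΨ k)) ((norm_one_iff _).1 (hΦ k))]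

lemma mix_apply {K d : ℕ} (p : Fin K → ℝ) (Ψ : Fin K → Fin d → ℂ) (i j : Fin d) :
    (∑ k, (p k : ℂ) • proj (Ψ k)) i j = ∑ k, (p k : ℂ) * (Ψ k i * star (Ψ k j)) := by
  rw [Matrix.sum_apply]
  rfl

lemma Wsep_rho (c : Bool) : Wsep c Hx rho rho ≤ 1 := by
  have hv : ∀ k, ∑ i, ‖(![Pi.single 0 1, Pi.single 1 1] : Fin 2 → Fin 4 → ℂ) k i‖ ^ 2 = 1 := by
    intro k
    fin_cases k <;> simp [Fin.sum_univ_four, Pi.single_apply]
  have hm : ∑ k, (((fun _ => 1 / 2 : Fin 2 → ℝ) k : ℝ) : ℂ) •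
      proj ((![Pi.single 0 1, Pi.single 1 1] : Fin 2 → Fin 4 → ℂ) k) = rho := by
    ext i j
    rw [mix_apply]
    fin_cases i <;> fin_cases j <;>
      simp [Fin.sum_univ_two, rho, Pi.single_apply]
  refine (Wsep_le c rho rho 2 (fun _ => 1 / 2) ![Pi.single 0 1, Pi.single 1 1]
    ![Pi.single 0 1, Pi.single 1 1] (fun _ => by norm_num) (by simp) hv hv hm hm).trans ?_
  simp [Fin.sum_univ_two, pcost_eq, Fin.sum_univ_four, Pi.single_apply]
  norm_num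

/-- `1/√2`. -/
noncomputable def r : ℝ := (√2)⁻¹

lemma r_sq : r ^ 2 = 1 / 2 := by
  unfold r
  rw [inv_pow, Real.sq_sqrt (by norm_num)]
  norm_num

lemma r_mul : r * r = 1 / 2 := by rw [← sq, r_sq]

lemma rC_mul : (r : ℂ) * r = 1 / 2 := by
  rw [← Complex.ofReal_mul, r_mul]
  norm_num

/-- `(e₂ ± e₃)/√2`. -/
noncomputable def vpm : Fin 2 → Fin 4 → ℂ := ![![0, 0, r, r], ![0, 0, r, -r]]

lemma Wsep_sig (c : Bool) : Wsep c Hx sig sig ≤ 1 / 4 := by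
  have hv : ∀ k, ∑ i, ‖vpm k i‖ ^ 2 = 1 := by
    intro k
    have := r_sq
    fin_cases k <;> simp [Fin.sum_univ_four, vpm] <;> linarith
  have hm : ∑ k, (((fun _ => 1 / 2 : Fin 2 → ℝ) k : ℝ) : ℂ) • proj (vpm k) = sig := by
    ext i j
    rw [mix_apply]
    have := rC_mul
    fin_cases i <;> fin_cases j <;>
      simp [Fin.sum_univ_two, sig, vpm, this] <;> norm_num
  refine (Wsep_le c sig sig 2 (fun _ => 1 / 2) vpm vpm (fun _ => by norm_num) (by simp) hv hv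
    hm hm).trans ?_
  have h2 := r_sq
  have h3 := r_mul
  rw [Fin.sum_univ_two, pcost_eq, pcost_eq]
  simp [Fin.sum_univ_four, vpm]
  rw [h2, h3]
  norm_num

/-- The separable cost between `ρ` and `σ` is at least `13/4`. -/
lemma Wsep_lower (c : Bool) : 13 / 4 ≤ Wsep c Hx rho sig := by
  refine le_csInf ?_ ?_
  · refine ⟨_, 2, fun _ => 1 / 2, ![Pi.single 0 1, Pi.single 1 1],
      ![Pi.single 2 1, Pi.single 3 1], fun _ => by norm_num, by simp, ?_, ?_, ?_, ?_, rfl⟩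
    · intro k
      fin_cases k <;> simp [Fin.sum_univ_four, Pi.single_apply]
    · intro k
      fin_cases k <;> simp [Fin.sum_univ_four, Pi.single_apply]
    · ext i j
      rw [mix_apply]
      fin_cases i <;> fin_cases j <;>
        simp [Fin.sum_univ_two, rho, Pi.single_apply]
    · ext i j
      rw [mix_apply]
      fin_cases i <;> fin_cases j <;>
        simp [Fin.sum_univ_two, sig, Pi.single_apply]
  · rintro x ⟨K, p, Ψ, Φ, hp, hp1, hΨ, hΦ, hρ, hσ, rfl⟩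
    have a1 := sum_diag p Ψ _ hρ 1
    have a2 := sum_diag p Ψ _ hρ 2
    have a3 := sum_diag p Ψ _ hρ 3
    have b0 := sum_diag p Φ _ hσ 0
    have b1 := sum_diag p Φ _ hσ 1
    have b3 := sum_diag p Φ _ hσ 3
    simp only [Fin.isValue, cons_val_one, cons_val_zero, cons_val, Complex.ofReal_eq_zero]
      at a1 a2 a3 b0 b1 b3
    have a1' : ∑ k, p k * ‖Ψ k 1‖ ^ 2 = 1 / 2 :=
      Complex.ofReal_injective (by rw [a1]; norm_num)
    have b3' : ∑ k, p k * ‖Φ k 3‖ ^ 2 = 1 / 2 :=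
      Complex.ofReal_injective (by rw [b3]; norm_num)
    have hz : ∀ (Θ : Fin K → Fin 4 → ℂ) (i : Fin 4), ∑ k, p k * ‖Θ k i‖ ^ 2 = 0 →
        ∀ k, Θ k i = 0 := by
      intro Θ i h k
      have := (Finset.sum_eq_zero_iff_of_nonneg fun k _ =>
        mul_nonneg (hp k).le (sq_nonneg _)).1 h k (Finset.mem_univ k)
      have h2 := (mul_eq_zero.1 this).resolve_left (hp k).ne'
      exact norm_eq_zero.1 (pow_eq_zero_iff (by norm_num) |>.1 h2)
    have key : ∀ k, p k * (1 + 6 * ‖Ψ k 1‖ ^ 2 - 3 / 2 * ‖Φ k 3‖ ^ 2) ≤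
        p k * W c Hx (proj (Ψ k)) (proj (Φ k)) := by
      intro k
      refine mul_le_mul_of_nonneg_left ?_ (hp k).le
      rw [W_pure c Hx Hx_symm ((norm_one_iff _).1 (hΨ k)) ((norm_one_iff _).1 (hΦ k)), pcost_eq,
        hΨ k, hΦ k, hz Ψ 2 a2 k, hz Ψ 3 a3 k, hz Φ 0 b0 k, hz Φ 1 b1 k]
      have e1 : ‖Ψ k 0‖ ^ 2 + ‖Ψ k 1‖ ^ 2 = 1 := by
        have := hΨ k
        rw [Fin.sum_univ_four, hz Ψ 2 a2 k, hz Ψ 3 a3 k] at this
        simpa using this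
      have e2 : ‖Φ k 2‖ ^ 2 + ‖Φ k 3‖ ^ 2 = 1 := by
        have := hΦ k
        rw [Fin.sum_univ_four, hz Φ 0 b0 k, hz Φ 1 b1 k] at this
        simpa using this
      have u := re_bound (Ψ k 0) (Ψ k 1)
      have v := re_bound (Φ k 2) (Φ k 3)
      have uv : (star (Ψ k 0) * Ψ k 1).re * (star (Φ k 2) * Φ k 3).re ≤
          (‖Ψ k 0‖ * ‖Ψ k 1‖) * (‖Φ k 2‖ * ‖Φ k 3‖) := by
        refine (le_abs_self _).trans ?_
        rw [abs_mul]
        exact mul_le_mul u v (abs_nonneg _) (by positivity)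
      have n0 := norm_nonneg (Ψ k 0)
      have n1 := norm_nonneg (Ψ k 1)
      have n2 := norm_nonneg (Φ k 2)
      have n3 := norm_nonneg (Φ k 3)
      have s1 := sq_nonneg (‖Ψ k 1‖ - ‖Φ k 3‖)
      have s2 := sq_nonneg (‖Ψ k 0‖ - ‖Φ k 2‖)
      have w : ‖Ψ k 1‖ * ‖Φ k 3‖ + ‖Ψ k 0‖ * ‖Φ k 2‖ ≤ 1 := by nlinarith
      have w2 := mul_le_mul_of_nonneg_left w (mul_nonneg n1 n3)
      simp only [norm_zero, star_zero, zero_mul, Complex.zero_re, mul_zero, add_zero, zero_add]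
      nlinarith
    have tot : ∑ k, p k * (1 + 6 * ‖Ψ k 1‖ ^ 2 - 3 / 2 * ‖Φ k 3‖ ^ 2) = 13 / 4 := by
      have : ∀ k, p k * (1 + 6 * ‖Ψ k 1‖ ^ 2 - 3 / 2 * ‖Φ k 3‖ ^ 2) =
          p k + 6 * (p k * ‖Ψ k 1‖ ^ 2) - 3 / 2 * (p k * ‖Φ k 3‖ ^ 2) := fun k => by ring
      simp only [this]
      rw [Finset.sum_sub_distrib, Finset.sum_add_distrib, ← Finset.mul_sum, ← Finset.mul_sum, hp1,
        a1', b3']
      norm_num
    rw [← tot]
    exact Finset.sum_le_sum fun k _ => key k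

/-- The vector `(e₀ ⊗ e₂ + e₁ ⊗ e₃)/√2`, or with the factors exchanged. -/
noncomputable def chi (c : Bool) : Fin 4 × Fin 4 → ℂ := fun x =>
  if (if c = true then x else x.swap) = (0, 2) ∨ (if c = true then x else x.swap) = (1, 3) then r
  else 0

lemma chi_cost (c : Bool) (A : Matrix (Fin 4) (Fin 4) ℂ) (B : Matrix (Fin 4) (Fin 4) ℂ) :
    trace (vecMulVec (chi c) (star (chi c)) * (A ⊗ₖ B)) =
      if c = true then 1 / 2 * (A 0 0 * B 2 2 + A 0 1 * B 2 3 + A 1 0 * B 3 2 + A 1 1 * B 3 3)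
      else 1 / 2 * (B 0 0 * A 2 2 + B 0 1 * A 2 3 + B 1 0 * A 3 2 + B 1 1 * A 3 3) := by
  have := rC_mul
  rw [vecMulVec_mul, trace_vecMulVec]
  rcases c with _ | _
  · simp [dotProduct, vecMul, Fintype.sum_prod_type, Fin.sum_univ_four, chi]
    linear_combination (B 0 0 * A 2 2 + B 0 1 * A 2 3 + B 1 0 * A 3 2 + B 1 1 * A 3 3) * this
  · simp [dotProduct, vecMul, Fintype.sum_prod_type, Fin.sum_univ_four, chi]
    linear_combination (A 0 0 * B 2 2 + A 0 1 * B 2 3 + A 1 0 * B 3 2 + A 1 1 * B 3 3) * this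

lemma chi_coupling (c : Bool) : IsCoupling c rho sig (vecMulVec (chi c) (star (chi c))) := by
  have := rC_mul
  refine ⟨⟨posSemidef_vecMulVec_self_star _, ?_⟩, ?_⟩
  · rcases c with _ | _ <;>
    simp [trace_vecMulVec, dotProduct, Fintype.sum_prod_type, Fin.sum_univ_four, chi, this] <;>
    norm_num
  · rcases c with _ | _
    · simp only [Bool.false_eq_true, if_false]
      constructor
      · ext i j
        fin_cases i <;> fin_cases j <;>
        simp [red₂, vecMulVec_apply, Fin.sum_univ_four, chi, rho, this]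
      · ext i j
        fin_cases i <;> fin_cases j <;>
        simp [red₁, vecMulVec_apply, Fin.sum_univ_four, chi, sig, this]
    · simp only [if_true]
      constructor
      · ext i j
        fin_cases i <;> fin_cases j <;>
        simp [red₁, vecMulVec_apply, Fin.sum_univ_four, chi, rho, this]
      · ext i j
        fin_cases i <;> fin_cases j <;>
        simp [red₂, vecMulVec_apply, Fin.sum_univ_four, chi, sig, this]

lemma Hx_zero_sq : Hx 0 * Hx 0 = !![0, 0, 0, 0; 0, 16, 0, 0; 0, 0, 0, 0; 0, 0, 0, 1] := by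
  ext i j
  fin_cases i <;> fin_cases j <;> simp [Hx, mul_apply, Fin.sum_univ_four]
  norm_num

lemma W_upper (c : Bool) : W c Hx rho sig ≤ 9 / 4 := by
  refine (W_le c Hx Hx_herm rho sig _ (chi_coupling c)).trans ?_
  unfold cost
  rw [Fin.sum_univ_two, cost_term, cost_term, Hx_symm, Hx_symm, Hx_zero_sq, Hx_one_sq,
    ← trace_mul_kron_one, ← trace_mul_kron_one, ← trace_mul_one_kron, ← trace_mul_one_kron]
  simp only [chi_cost]
  rcases c with _ | _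
  · simp [Hx]
    norm_num
  · simp [Hx]
    norm_num

/-- **The modified separable distance is not always at most the modified distance.**  There are
`d`, `N`, Hermitian `d × d` matrices `H₁, …, H_N` and states `ρ`, `σ` with
`W̃(ρ, σ) < W̃_sep(ρ, σ)`, whichever factor of the coupling carries the transposed state. -/
theorem result : ∃ (d N : ℕ) (H : Fin N → Matrix (Fin d) (Fin d) ℂ)
    (ρ σ : Matrix (Fin d) (Fin d) ℂ), (∀ n, (H n).IsHermitian) ∧ IsState ρ ∧ IsState σ ∧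
      ∀ c : Bool, Wmod c H ρ σ < Wsepmod c H ρ σ := by
  refine ⟨4, 2, Hx, rho, sig, Hx_herm, rho_state, sig_state, fun c => ?_⟩
  have h1 := Wsep_lower c
  have h2 := Wsep_rho c
  have h3 := Wsep_sig c
  have h4 := W_upper c
  have h5 := W_nonneg c Hx Hx_herm rho rho
  have h6 := W_nonneg c Hx Hx_herm sig sig
  unfold Wmod Wsepmod
  linarith

end Pool.Agent.Results.MP_9a8b60_mp.SeparableExceedsGeneral
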